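import Pool.Agent.H47.RotA

open Set Filter Topology MeasureTheory Pool.Agent.H39.NonBorel Pool.Agent.H47.Rot

namespace Pool.Agent.Results.MP_9e8ffd_lc.NotBorel

/-- integer sequences along which the powers of some irrational point of the circle tend to `1` -/
def S : Set (ℕ → ℤ) :=
  {n | ∃ θ : ℝ, Irrational θ ∧
    Tendsto (fun k => Complex.exp (2 * Real.pi * Complex.I * θ) ^ n k) atTop (𝓝 1)}

theorem forward (T : List ℕ → Bool) (y : ℕ → ℕ) (hy : ∀ n, T (res y n) = true) :
    ∃ θ : ℝ, Irrational θ ∧ ∀ ε : ℝ, 0 < ε → ∃ N0, ∀ i : ℕ × ℕ × ℕ × ℕ, N0 ≤ i.1 →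
      Near (val (tt T (L i.1)) i * θ) ε := by
  classical
  let enc : ℕ → ℕ := fun n => Encodable.encode (res y n)
  have Le : ∀ n, L (enc n) = res y n := fun n => Denumerable.ofNat_encode _
  have em : StrictMono enc := strictMono_nat_of_lt_succ fun n =>
    Nat.lt_succ_of_le (Nat.right_le_pair _ _)
  let br : ℕ → Prop := fun i => ∃ n, i = enc n
  let A : ℕ → ℤ := fun N => ∏ i ∈ Finset.range N, ((d i : ℤ) - if br i then 1 else 0)
  have As : ∀ N, A (N + 1) = A N * ((d N : ℤ) - if br N then 1 else 0) := fun N =>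
    Finset.prod_range_succ _ _
  have d2 : ∀ N, (2 : ℝ) ≤ d N := fun N => by exact_mod_cast (d_prime N).two_le
  have q0 : ∀ N, (0 : ℝ) < q N := fun N => by exact_mod_cast q_pos N
  have dq : ∀ N : ℕ, 2 * ((N : ℝ) + 1) * q N < d N := fun N => by exact_mod_cast d_gt N
  let u : ℕ → ℝ := fun N => A N / q N
  have us : ∀ N, u (N + 1) = u N - (if br N then u N / d N else 0) := fun N => by
    have := d2 N
    have := q0 N
    simp only [u, As, q_succ]
    split_ifs <;> push_cast <;> field_simp <;> ring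
  have u1 : ∀ N, 0 < u N ∧ u N ≤ 1 := fun N => by
    induction N with
    | zero => simp [u, A, q]
    | succ N ih =>
      rw [us]
      have := d2 N
      have h1 : u N / d N ≤ u N / 2 := by gcongr; exact ih.1.le
      have h2 : 0 < u N / d N := by have := ih.1; positivity
      split_ifs <;> constructor <;> linarith [ih.1, ih.2]
  have ua : Antitone u := antitone_nat_of_succ_le fun N => by
    rw [us]
    have := (u1 N).1
    have := d2 N
    split_ifs
    · exact sub_le_self _ (by positivity)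
    · simp
  have um : Monotone fun N => u N - 2 / d N := monotone_nat_of_le_succ fun N => by
    rw [us]
    have a := d2 N
    have h1 : u N / d N ≤ 1 / d N := by gcongr; exact (u1 N).2
    have h2 : (2 : ℝ) / d (N + 1) ≤ 1 / d N := by
      have b := dq (N + 1)
      have c : (1 : ℝ) ≤ q N := by exact_mod_cast q_pos N
      rw [q_succ] at b
      push_cast at b
      rw [div_le_div_iff₀ (by linarith [d2 (N + 1)]) (by linarith)]
      have : (0 : ℝ) ≤ N := Nat.cast_nonneg _
      have : (d N : ℝ) ≤ q N * d N := by nlinarith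
      nlinarith
    have h3 : (2 : ℝ) / d N = 1 / d N + 1 / d N := by ring
    have h4 : (0 : ℝ) < 1 / d N := by positivity
    split_ifs <;> linarith
  have bd : BddBelow (range u) := ⟨0, by rintro _ ⟨N, rfl⟩; exact (u1 N).1.le⟩
  set θ := ⨅ N, u N with hθ
  have t1 : ∀ N, θ < u N := fun N => by
    refine lt_of_le_of_lt (ciInf_le bd (enc N + 1)) (lt_of_lt_of_le ?_ (ua (em.id_le N)))
    rw [us, if_pos ⟨N, rfl⟩]
    have := (u1 (enc N)).1
    have := d2 (enc N)
    exact sub_lt_self _ (by positivity)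
  have t2 : ∀ N, u N - 2 / d N ≤ θ := fun N => le_ciInf fun M => by
    have a : ∀ K, (0 : ℝ) ≤ 2 / d K := fun K => by positivity
    rcases le_total N M with h | h
    · exact (um h).trans (sub_le_self _ (a M))
    · exact (sub_le_self _ (a N)).trans (ua h)
  have t3 : ∀ N : ℕ, q N * θ - A N < 0 ∧ |q N * θ - A N| ≤ 1 / (N + 1) := fun N => by
    have a := t1 N
    have b := t2 N
    have e : (A N : ℝ) = q N * u N := by simp only [u]; field_simp [(q0 N).ne']
    have c : q N * θ - A N < 0 := by rw [e]; nlinarith [q0 N]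
    refine ⟨c, ?_⟩
    rw [abs_of_neg c, e]
    have f : (q N : ℝ) * (2 / d N) ≤ 1 / (N + 1) := by
      rw [mul_div_assoc', div_le_div_iff₀ (by linarith [d2 N]) (by positivity)]
      linarith [dq N]
    nlinarith [q0 N]
  have D1 : ∀ s N, s < N → (¬ br s ∨ ∃ i, s < i ∧ i < N ∧ br i) → (d s : ℤ) ∣ A N := by
    rintro s N hs (h | ⟨i, h1, h2, h3⟩)
    · refine Dvd.dvd.trans ?_ (Finset.dvd_prod_of_mem _ (Finset.mem_range.2 hs))
      simp [h]
    · refine Dvd.dvd.trans ?_ (Finset.dvd_prod_of_mem _ (Finset.mem_range.2 h2))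
      rw [if_pos h3]; exact d_mod h1
  have suf : ∀ n l, l <:+ res y n ↔ ∃ m ≤ n, l = res y m := fun n l => by
    induction n with
    | zero => simp
    | succ n ih =>
      rw [res_succ, List.suffix_cons_iff, ih]
      constructor
      · rintro (h | ⟨m, h1, h2⟩)
        · exact ⟨n + 1, le_rfl, h⟩
        · exact ⟨m, by omega, h2⟩
      · rintro ⟨m, h1, h2⟩
        rcases h1.eq_or_lt with rfl | h
        · exact Or.inl h2
        · exact Or.inr ⟨m, by omega, h2⟩
  have D2 : ∀ s N, s < N → br s → (∀ i, s < i → i < N → ¬ br i) → (d s : ℤ) ∣ A N + al s := by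
    intro s N hs hb
    induction N, hs using Nat.le_induction with
    | base =>
      intro _
      have : A s = al s := Finset.prod_congr rfl fun i hi => by
        obtain ⟨n, rfl⟩ := hb
        congr 1
        refine if_congr ?_ rfl rfl
        rw [Le, suf]
        constructor
        · rintro ⟨m, rfl⟩
          exact ⟨m, (em.lt_iff_lt.1 (Finset.mem_range.1 hi)).le, Le m⟩
        · rintro ⟨m, -, h⟩
          exact ⟨m, by simp only [enc, ← h, L, Denumerable.encode_ofNat]⟩
      rw [As, if_pos hb, this]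
      exact ⟨al s, by ring⟩
    | succ N hN ih =>
      intro h
      rw [As, if_neg (h N hN (by omega)),
        show A N * ((d N : ℤ) - 0) + al s = (d N - 1) * A N + (A N + al s) by ring]
      exact ((d_mod hN).mul_right _).add (ih fun i h1 h2 => h i h1 (by omega))
  refine ⟨θ, ?_, fun ε hε => ?_⟩
  · rintro ⟨r, hr⟩
    obtain ⟨a, b⟩ := t3 r.den
    have e : (r.den : ℝ) * (q r.den * θ - A r.den) = ((q r.den * r.num - r.den * A r.den : ℤ) : ℝ) := by
      rw [← hr, Rat.cast_def]; push_cast; field_simp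
    have p : (0 : ℝ) < r.den := by exact_mod_cast r.den_pos
    have c : ((q r.den * r.num - r.den * A r.den : ℤ) : ℝ) < 0 := by rw [← e]; nlinarith
    have c' : (-1 : ℝ) < ((q r.den * r.num - r.den * A r.den : ℤ) : ℝ) := by
      rw [← e]
      rw [abs_of_neg a, le_div_iff₀ (by positivity)] at b
      nlinarith
    have c1 : (q r.den * r.num - r.den * A r.den : ℤ) < 0 := by exact_mod_cast c
    have c2 : (-1 : ℤ) < (q r.den * r.num - r.den * A r.den : ℤ) := by exact_mod_cast c'
    omega
  obtain ⟨n0, hn0⟩ := exists_nat_one_div_lt (half_pos hε)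
  refine ⟨enc n0 + 1, ?_⟩
  rintro ⟨N, s, a, j⟩ (hN : enc n0 + 1 ≤ N)
  have small : ∀ M : ℕ, n0 ≤ M → |q M * θ - A M| < ε / 2 := fun M hM =>
    (t3 M).2.trans_lt (lt_of_le_of_lt (by gcongr) hn0)
  have n0N : n0 ≤ N := by have := em.id_le n0; simp only [id] at this; omega
  have z : Near (((0 : ℤ) : ℝ) * θ) ε := ⟨0, by simpa using hε⟩
  have ds : (d s : ℝ) ≠ 0 := by linarith [d2 s]
  simp only [val]
  split_ifs with h1 h2 h3 h4 h5
  · exact ⟨A N, by push_cast; linarith [small N n0N]⟩
  · obtain ⟨m, hm⟩ : (d s : ℤ) ∣ A (N + 1) - A N := by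
      rw [As]
      by_cases hb : br N
      · rw [if_pos hb, ← mul_sub_one]
        refine (D1 s N h4.1 ?_).mul_right _
        by_cases hs : br s
        · right
          obtain ⟨n, rfl⟩ := hb
          obtain ⟨m, rfl⟩ := hs
          have mn := em.lt_iff_lt.1 h4.1
          obtain ⟨n, rfl⟩ : ∃ k, n = k + 1 := ⟨n - 1, by omega⟩
          refine ⟨enc n, em (lt_of_le_of_ne (by omega) ?_), em (by omega), n, rfl⟩
          rintro rfl
          refine h4.2.2 ⟨?_, by rw [Le, Le]; rfl⟩
          rw [Le]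
          generalize m + 1 = k
          induction k with
          | zero => exact hy 0
          | succ k ih => exact (Bool.and_eq_true _ _).mpr ⟨hy (k + 1), ih⟩
        · exact Or.inl hs
      · rw [if_neg hb, sub_zero, ← mul_sub_one]
        exact (d_mod h4.1).mul_left _
    refine ⟨a * m, ?_⟩
    have hm' : (A (N + 1) : ℝ) = A N + d s * m := by
      have : A (N + 1) = A N + d s * m := by linarith
      exact_mod_cast this
    push_cast
    rw [mul_sub, sub_mul, R_mul (by omega) _ _ (A (N + 1)), R_mul h4.1 _ _ (A N)]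
    have e1 := abs_lt.1 ((abs_frac h4.2.1 _).trans_lt (small N n0N))
    have e2 := abs_lt.1 ((abs_frac h4.2.1 _).trans_lt (small (N + 1) (by omega)))
    have e3 : (a : ℝ) * A (N + 1) / d s = a * A N / d s + a * m := by rw [hm']; field_simp
    rw [e3, abs_lt]
    constructor <;> linarith
  · exact z
  · have e1 := abs_lt.1 ((abs_frac (aa_spec s).1 _).trans_lt (small N n0N))
    push_cast
    rw [R_mul h5 _ _ (A N)]
    by_cases hD : ¬ br s ∨ ∃ i, s < i ∧ i < N ∧ br i
    · obtain ⟨m, hm⟩ := D1 s N h5 hD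
      refine ⟨aa s * m, ?_⟩
      have e3 : (aa s : ℝ) * A N / d s = aa s * m := by rw [hm]; push_cast; field_simp
      rw [e3, abs_lt]
      push_cast
      constructor <;> linarith
    · push Not at hD
      obtain ⟨m, hm⟩ := D2 s N h5 hD.1 hD.2
      obtain ⟨m', hm'⟩ := (aa_spec s).2
      refine ⟨aa s * m - m', ?_⟩
      have e3 : (aa s : ℝ) * A N / d s = aa s * m - m' + 1 / d s := by
        have : aa s * A N = d s * (aa s * m - m') + 1 := by linear_combination aa s * hm - hm'
        have : (aa s : ℝ) * A N = d s * (aa s * m - m') + 1 := by exact_mod_cast this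
        rw [this]; field_simp
      have e4 : n0 ≤ s := by
        by_contra hc
        exact hD.2 (enc n0) (lt_of_lt_of_le (not_le.1 hc) (em.id_le n0)) hN ⟨n0, rfl⟩
      have e5 : (1 : ℝ) / d s ≤ 1 / (n0 + 1) := by
        have c : (1 : ℝ) ≤ q s := by exact_mod_cast q_pos s
        have c2 : (n0 : ℝ) ≤ s := by exact_mod_cast e4
        have := dq s
        have : (0 : ℝ) ≤ n0 := Nat.cast_nonneg _
        gcongr
        nlinarith
      have e6 : (0 : ℝ) < 1 / d s := by have := d2 s; positivity
      rw [e3, abs_lt]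
      push_cast
      constructor <;> linarith
  · exact z
  · exact z

theorem tendsto_iff (n : ℕ → ℤ) (θ : ℝ) :
    Tendsto (fun k => Complex.exp (2 * Real.pi * Complex.I * θ) ^ n k) atTop (𝓝 1) ↔
      ∀ ε : ℝ, 0 < ε → ∀ᶠ k in atTop, Near (n k * θ) ε := by
  let g : UnitAddCircle → ℂ := fun x => (AddCircle.homeomorphCircle one_ne_zero x : Circle)
  have hg : IsEmbedding g :=
    IsEmbedding.subtypeVal.comp (AddCircle.homeomorphCircle one_ne_zero).isEmbedding
  have e : ∀ m : ℤ, Complex.exp (2 * Real.pi * Complex.I * θ) ^ m = g ((m * θ : ℝ) : UnitAddCircle) := by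
    intro m
    simp only [g, AddCircle.homeomorphCircle_apply, AddCircle.toCircle_apply_mk, Circle.coe_exp]
    rw [← Complex.exp_int_mul]
    congr 1; push_cast; ring
  have e0 : g 0 = 1 := by simp [g, AddCircle.homeomorphCircle_apply]
  simp only [e]
  rw [← e0, ← Function.comp_def g, ← hg.tendsto_nhds_iff, Metric.tendsto_nhds]
  refine forall₂_congr fun ε _ => eventually_congr (Eventually.of_forall fun k => ?_)
  rw [dist_zero_right, UnitAddCircle.norm_eq]
  exact ⟨fun h => ⟨_, h⟩, fun ⟨m, hm⟩ => (round_le _ m).trans_lt hm⟩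

theorem result : ¬ @MeasurableSet (ℕ → ℤ) (borel (ℕ → ℤ)) S := by
  intro h
  let e : ℕ ≃ ℕ × ℕ × ℕ × ℕ := (Denumerable.eqv _).symm
  let F : (List ℕ → Bool) → ℕ → ℤ := fun T k => val (tt T (L (e k).1)) (e k)
  have hF : Continuous F := continuous_pi fun k =>
    (continuous_of_discreteTopology (f := fun b => val b (e k))).comp (cont_tt _)
  have hm : MeasurableSet (F ⁻¹' S) := by
    rw [← BorelSpace.measurable_eq (α := ℕ → ℤ)] at h
    exact hF.measurable h
  refine not_measurableSet_IF (by
    convert hm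
    ext T
    constructor
    · rintro ⟨y, hy⟩
      obtain ⟨θ, h1, h2⟩ := forward T y hy
      refine ⟨θ, h1, (tendsto_iff _ _).2 fun ε hε => ?_⟩
      obtain ⟨N0, h3⟩ := h2 ε hε
      rw [← Nat.cofinite_eq_atTop, eventually_cofinite]
      have fin : (Iic N0 ×ˢ Iic N0 ×ˢ Iic (∑ N ∈ Finset.range N0, q N) ×ˢ Iic 2 :
          Set (ℕ × ℕ × ℕ × ℕ)).Finite :=
        (finite_Iic _).prod ((finite_Iic _).prod ((finite_Iic _).prod (finite_Iic _)))
      refine (fin.preimage e.injective.injOn).subset fun k hk => ?_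
      have a : (e k).1 < N0 := not_le.1 fun hc => hk (h3 _ hc)
      have b : (e k).2.1 ≤ (e k).1 ∧ (e k).2.2.1 ≤ q (e k).1 ∧ (e k).2.2.2 ≤ 2 := by
        by_contra hc
        exact hk ⟨0, by simpa [F, val, hc] using hε⟩
      exact ⟨a.le, b.1.trans a.le, b.2.1.trans
        (Finset.single_le_sum (fun _ _ => Nat.zero_le _) (Finset.mem_range.2 a)), b.2.2⟩
    · rintro ⟨θ, h1, h2⟩
      refine backward T θ h1 fun ε hε => ?_
      obtain ⟨K, hK⟩ := eventually_atTop.1 ((tendsto_iff _ _).1 h2 ε hε)
      refine ⟨(Finset.range K).sup (fun k => (e k).1) + 1, fun i hi => ?_⟩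
      obtain ⟨k, rfl⟩ := e.surjective i
      refine hK k (not_lt.1 fun hc => ?_)
      have := Finset.le_sup (f := fun k => (e k).1) (Finset.mem_range.2 hc)
      omega)

end Pool.Agent.Results.MP_9e8ffd_lc.NotBorel
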